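import Pool.Agent.helper77.BND.SpecB

set_option autoImplicit false

open scoped Topology Matrix
open Filter Finset

namespace Pool.Agent.BND

open Pool.Agent.CZ Pool.Agent.PV

theorem BFE (hXSU : XSU_stmt) : BFE_stmt := by
  intro B M _ α A _ ι u c hC m a b G G' ha hb hG hG'
  constructor
  · rintro rfl e s i j he hs hi hj
    obtain ⟨x, hx⟩ := hXSU B M hC.bs m (emb (B.L m) e s i) ⟨e, s, i, he, hs, hi, rfl⟩
    have h1 := hG x e s i he hs hi hx ((i : ℤ) - j)
    have h2 := hG' x e s i he hs hi hx ((i : ℤ) - j)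
    have e1 : (i : ℤ) - ((i : ℤ) - j) = j := by ring
    rw [e1, if_pos ⟨by omega, by exact_mod_cast hj⟩, Int.toNat_natCast] at h1 h2
    rw [← h1, ← h2]
  · intro h
    have hc : ∀ n : ℤ, c n a = c n b := by
      intro n
      ext x
      obtain ⟨e, s, i, he, hs, hi, hx⟩ := (x.2 m).1
      rw [hG x e s i he hs hi hx n, hG' x e s i he hs hi hx n]
      split_ifs with h1
      · refine h e s i _ he hs hi ?_
        omega
      · rfl
    have hH : ∀ e, e < (B.L m).N → (B.L m).h e ≤ ∑ e' ∈ range (B.L m).N, (B.L m).h e' := by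
      intro e he
      exact Finset.single_le_sum (f := fun e' => (B.L m).h e') (fun _ _ => Nat.zero_le _) (Finset.mem_range.2 he)
    rw [ha.sum _ hH, hb.sum _ hH]
    exact Finset.sum_congr rfl fun n _ => by rw [hc n]

end Pool.Agent.BND
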