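import Pool.Agent.helper77.BND.SpecB

set_option autoImplicit false

open scoped Topology Matrix
open Filter Finset

namespace Pool.Agent.BND

open Pool.Agent.CZ Pool.Agent.PV

lemma BLS_fw {Z Z' : Type} [Zero Z] [Zero Z'] (h : ℕ → ℕ) (Φ : ℕ → ℝ → ℕ → Z) (Ψ : ℕ → ℝ → ℕ → Z') (P : Z → Z') :
    ∀ (w : List (ℕ × ℝ)) (i : ℕ), (∀ a ∈ w, ∀ j < h a.1, P (Φ a.1 a.2 j) = Ψ a.1 a.2 j) → i < hw h w →
      P (fw h Φ w i) = fw h Ψ w i := by
  intro w
  induction w with
  | nil =>
    intro i _ hi
    simp [hw] at hi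
  | cons a w ih =>
    intro i hmem hi
    rw [fw, fw]
    by_cases h1 : i < h a.1
    · rw [if_pos h1, if_pos h1]
      exact hmem a List.mem_cons_self i h1
    · rw [if_neg h1, if_neg h1]
      refine ih _ (fun b hb => hmem b (List.mem_cons_of_mem _ hb)) ?_
      simp only [hw, List.map_cons, List.sum_cons] at hi ⊢
      omega

lemma BLS_P (B : BS) (M : ℕ → ℕ → ℕ → ℕ) (hB : IsBS B M) (p : ℕ → Am → Am) (hp : IsMp B B.st p) (m : ℕ) :
    ∀ d, ∃ P : Am → Am, ContinuousOn P (FS (B.L (m + d))) ∧ (∀ y ∈ FS (B.L (m + d)), P y ∈ FS (B.L m)) ∧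
      ∀ e s i, e < (B.L (m + d)).N → s ∈ U → i < (B.L (m + d)).h e → P (emb (B.L (m + d)) e s i) = B.lp m d e s i := by
  intro d
  induction d with
  | zero => exact ⟨id, continuousOn_id, fun y hy => hy, fun e s i _ _ _ => rfl⟩
  | succ d ih =>
    obtain ⟨P, h1, h2, h3⟩ := ih
    refine ⟨P ∘ p (m + d), h1.comp (hp.cont (m + d)) (fun y hy => hp.maps (m + d) y hy),
      fun y hy => h2 _ (hp.maps (m + d) y hy), ?_⟩
    intro e s i he hs hi
    show P (p (m + d) (emb (B.L (m + d + 1)) e s i)) = B.lp m (d + 1) e s i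
    rw [hp.val (m + d) e s i he hs hi]
    show P (fw (B.L (m + d)).h (emb (B.L (m + d))) (B.w (m + d) e s) i) =
      fw (B.L (m + d)).h (B.lp m d) (B.w (m + d) e s) i
    apply BLS_fw
    · intro a ha j hj
      obtain ⟨h4, h5⟩ := hB.lett (m + d) e s he hs a ha
      exact h3 a.1 a.2 j h4 h5 hj
    · rw [hB.htw (m + d) e s he hs]
      exact hi

theorem BLS (hWSM : WSM_stmt) (hLPX : LPX_stmt) (hPMA : PMA_stmt) (hFLM : FLM_stmt) : BLS_stmt := by
  intro B M hB m T z hT hz
  obtain ⟨p, -, -, hp, -, -⟩ := hPMA B M hB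
  intro d
  induction d with
  | zero => exact hz
  | succ d ih =>
    obtain ⟨P, hP1, hP2, hP3⟩ := BLS_P B M hB p hp m d
    have h0U : (0 : ℝ) ∈ U := ⟨le_rfl, zero_le_one⟩
    have h1U : (1 : ℝ) ∈ U := ⟨zero_le_one, le_rfl⟩
    have hbU : ∀ b : Bool, (if b then (1 : ℝ) else 0) ∈ U := by
      intro b
      cases b
      · simp
      · simp
    -- the integer sums
    let Zi : List (ℕ × ℝ) → ℤ := sw fun e _ => (((B.L (m + d)).W e false).map (MZ B M m z d)).sum
    have hletter : ∀ w : List (ℕ × ℝ), (∀ a ∈ w, a.1 < (B.L (m + d)).N ∧ a.2 ∈ U) →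
        ∑ i ∈ range (hw (B.L (m + d)).h w), T (fw (B.L (m + d)).h (B.lp m d) w i) = ((Zi w : ℤ) : ℂ) := by
      intro w hw'
      rw [hWSM (B.L (m + d)).h w Am (B.lp m d) ℂ T]
      show (w.map fun a => ∑ i ∈ range ((B.L (m + d)).h a.1), T (B.lp m d a.1 a.2 i)).sum =
        (((w.map fun a => (((B.L (m + d)).W a.1 false).map (MZ B M m z d)).sum).sum : ℤ) : ℂ)
      have e1 : (w.map fun a => ∑ i ∈ range ((B.L (m + d)).h a.1), T (B.lp m d a.1 a.2 i)) =
          w.map fun a => (((((B.L (m + d)).W a.1 false).map (MZ B M m z d)).sum : ℤ) : ℂ) := by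
        apply List.map_congr_left
        intro a ha
        exact ih a.1 a.2 false (hw' a ha).1 (hw' a ha).2
      rw [e1]
      clear e1 hw'
      induction w with
      | nil => simp
      | cons a w ihw =>
        rw [List.map_cons, List.sum_cons, List.map_cons, List.sum_cons, ihw]
        push_cast
        rfl
    have hvert : ∀ v, v < (B.L (m + d + 1)).n → Zi (B.w (m + d) v 0) = MZ B M m z (d + 1) v := by
      intro v hv
      exact hB.cnt (m + d) v (MZ B M m z d) hv
    have hF : ∀ e s, e < (B.L (m + d + 1)).N → s ∈ U →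
        ∑ i ∈ range ((B.L (m + d + 1)).h e), T (B.lp m (d + 1) e s i) = ((Zi (B.w (m + d) e s) : ℤ) : ℂ) := by
      intro e s he hs
      rw [← hletter (B.w (m + d) e s) (hB.lett (m + d) e s he hs), hB.htw (m + d) e s he hs]
      rfl
    -- continuity
    have hst : ∀ e s i, e < (B.L (m + d + 1)).N → s ∈ U → i < (B.L (m + d + 1)).h e →
        B.st (m + d) e s i ∈ FS (B.L (m + d)) ∧ P (B.st (m + d) e s i) = B.lp m (d + 1) e s i := by
      intro e s i he hs hi
      constructor
      · rw [← hp.val (m + d) e s i he hs hi]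
        exact hp.maps (m + d) _ ⟨e, s, i, he, hs, hi, rfl⟩
      · show P (fw (B.L (m + d)).h (emb (B.L (m + d))) (B.w (m + d) e s) i) =
          fw (B.L (m + d)).h (B.lp m d) (B.w (m + d) e s) i
        apply BLS_fw
        · intro a ha j hj
          obtain ⟨h4, h5⟩ := hB.lett (m + d) e s he hs a ha
          exact hP3 a.1 a.2 j h4 h5 hj
        · rw [hB.htw (m + d) e s he hs]
          exact hi
    have hcont : ∀ e, e < (B.L (m + d + 1)).N →
        ContinuousOn (fun s => ∑ i ∈ range ((B.L (m + d + 1)).h e), T (B.lp m (d + 1) e s i)) U := by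
      intro e he
      apply continuousOn_finsetSum
      intro i hi
      rw [Finset.mem_range] at hi
      have h6 : ContinuousOn (fun s => T (P (B.st (m + d) e s i))) U := by
        have h7 : ContinuousOn (fun s => P (B.st (m + d) e s i)) U :=
          hP1.comp (hB.cont (m + d) e i he hi) fun s hs => (hst e s i he hs hi).1
        exact hT.comp h7 fun s hs => hP2 _ (hst e s i he hs hi).1
      refine h6.congr fun s hs => ?_
      show T (B.lp m (d + 1) e s i) = T (P (B.st (m + d) e s i))
      rw [(hst e s i he hs hi).2]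
    have hconst : ∀ e, e < (B.L (m + d + 1)).N → ∀ s ∈ U, ∀ s' ∈ U,
        Zi (B.w (m + d) e s) = Zi (B.w (m + d) e s') := by
      intro e he s hs s' hs'
      have hpre : IsPreconnected U := isPreconnected_Icc
      have h8 : ContinuousOn (fun s => Zi (B.w (m + d) e s)) U := by
        rw [Int.isClosedEmbedding_coe_real.isInducing.continuousOn_iff]
        have h9 : ContinuousOn (fun s => (∑ i ∈ range ((B.L (m + d + 1)).h e), T (B.lp m (d + 1) e s i)).re) U :=
          Complex.continuous_re.comp_continuousOn (hcont e he)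
        refine h9.congr fun s hs => ?_
        show ((Zi (B.w (m + d) e s) : ℤ) : ℝ) = (∑ i ∈ range ((B.L (m + d + 1)).h e), T (B.lp m (d + 1) e s i)).re
        rw [hF e s he hs, Complex.intCast_re]
      exact hpre.constant h8 hs hs'
    -- the ends
    have hend : ∀ e (b : Bool), e < (B.L (m + d + 1)).N →
        ∑ i ∈ range ((B.L (m + d + 1)).h e), T (B.lp m (d + 1) e (if b then 1 else 0) i) =
          (((((B.L (m + d + 1)).W e b).map (MZ B M m z (d + 1))).sum : ℤ) : ℂ) := by
      intro e b he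
      have hv : ∀ v ∈ (B.L (m + d + 1)).W e b, v < (B.L (m + d + 1)).n := (hB.lv (m + d + 1)).mem e he b
      have hnN := (hB.lv (m + d + 1)).nN
      obtain ⟨f1, f2, -⟩ := hFLM (B.L (m + d)).h (B.L (m + d + 1)).h (fun v => B.w (m + d) v 0) ((B.L (m + d + 1)).W e b)
        (fun v hv' => hB.htw (m + d) v 0 (lt_of_lt_of_le (hv v hv') hnN) h0U)
      have hlen : hw (B.L (m + d)).h (((B.L (m + d + 1)).W e b).flatMap fun v => B.w (m + d) v 0) =
          (B.L (m + d + 1)).h e := by
        rw [f1]
        exact (hB.lv (m + d + 1)).ht e he b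
      have hgood : ∀ a ∈ ((B.L (m + d + 1)).W e b).flatMap (fun v => B.w (m + d) v 0),
          a.1 < (B.L (m + d)).N ∧ a.2 ∈ U := by
        intro a ha
        rw [List.mem_flatMap] at ha
        obtain ⟨v, hv', ha⟩ := ha
        exact hB.lett (m + d) v 0 (lt_of_lt_of_le (hv v hv') hnN) h0U a ha
      have e2 : ∀ i ∈ range ((B.L (m + d + 1)).h e), T (B.lp m (d + 1) e (if b then 1 else 0) i) =
          T (fw (B.L (m + d)).h (B.lp m d) (((B.L (m + d + 1)).W e b).flatMap fun v => B.w (m + d) v 0) i) := by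
        intro i hi
        rw [Finset.mem_range] at hi
        rw [← (hst e (if b then 1 else 0) i he (hbU b) hi).2, hB.ends (m + d) e b i he hi]
        congr 1
        apply BLS_fw
        · intro a ha j hj
          exact hP3 a.1 a.2 j (hgood a ha).1 (hgood a ha).2 hj
        · rw [hlen]
          exact hi
      rw [Finset.sum_congr rfl e2]
      have e3 := hletter (((B.L (m + d + 1)).W e b).flatMap fun v => B.w (m + d) v 0) hgood
      rw [hlen] at e3
      rw [e3]
      congr 1
      show sw (fun e _ => (((B.L (m + d)).W e false).map (MZ B M m z d)).sum)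
        (((B.L (m + d + 1)).W e b).flatMap fun v => B.w (m + d) v 0) = _
      rw [f2 ℤ (fun e _ => (((B.L (m + d)).W e false).map (MZ B M m z d)).sum)]
      congr 1
      apply List.map_congr_left
      intro v hv'
      exact hvert v (hv v hv')
    intro e s b he hs
    have h10 := hend e b he
    have h11 := hF e (if b then 1 else 0) he (hbU b)
    have h12 := hF e s he hs
    rw [hconst e he s hs _ (hbU b)] at h12
    exact (h12.trans h11.symm).trans h10

end Pool.Agent.BND
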