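import Pool.Agent.helper77.BND.SpecB

set_option autoImplicit false

open scoped Topology Matrix
open Filter Finset

namespace Pool.Agent.BND

open Pool.Agent.CZ Pool.Agent.PV

theorem BSA (hBFG : BFG_stmt) (hBFA : BFA_stmt) (hBFM : BFM_stmt) (hBMO : BMO_stmt) (hBCL : BCL_stmt) : BSA_stmt := by
  intro B M _ α A _ ι u c hC
  let S : ℕ → Subalgebra ℂ A := fun m =>
    { carrier := {a | InS B ι u c m a}
      mul_mem' := by
        intro a b ha hb
        obtain ⟨G, hG1, hG2⟩ := hBFG B M α A ι u c hC m a ha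
        obtain ⟨G', hG1', hG2'⟩ := hBFG B M α A ι u c hC m b hb
        exact (hBFM B M α A ι u c hC m a b G G' ha hb hG1 hG1' hG2 hG2').1
      add_mem' := by
        intro a b ha hb
        obtain ⟨G, hG1, hG2⟩ := hBFG B M α A ι u c hC m a ha
        obtain ⟨G', hG1', hG2'⟩ := hBFG B M α A ι u c hC m b hb
        exact ((hBFA B M α A ι u c hC m).2.1 a b G G' ha hb hG2 hG2').1
      algebraMap_mem' := by
        intro z
        rw [Algebra.algebraMap_eq_smul_one]
        exact ((hBFA B M α A ι u c hC m).2.2 z 1 _ (hBFA B M α A ι u c hC m).1.1 (hBFA B M α A ι u c hC m).1.2).1 }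
  refine ⟨S, ⟨fun m a => Iff.rfl, ?_, ?_⟩⟩
  · apply monotone_nat_of_le_succ
    intro m a ha
    exact hBMO B M α A ι u c hC m a ha
  · intro m
    exact hBCL B M α A ι u c hC m

end Pool.Agent.BND
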